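import Pool.Agent.N641.VB.Stm

set_option autoImplicit false

/-!
# Project VB (helper641), leaf REF by helper592: refinement by compactness
-/

namespace Pool.Agent.N592.VB

open Pool.Agent.N641.VB

variable {M : Type} [AddCommMonoid M]

theorem am_prod {A B : Type} [BooleanAlgebra A] [BooleanAlgebra B] {mu : A → M} {nu : B → M}
    (hm : AM mu) (hn : AM nu) : AM (mprod mu nu) := by
  refine ⟨?_, ?_⟩
  · show mu ⊥ + nu ⊥ = 0
    rw [hm.bot, hn.bot, add_zero]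
  · intro a b h
    have h1 : Disjoint a.1 b.1 := (Prod.disjoint_iff.1 h).1
    have h2 : Disjoint a.2 b.2 := (Prod.disjoint_iff.1 h).2
    show mu (a.1 ⊔ b.1) + nu (a.2 ⊔ b.2) = (mu a.1 + nu a.2) + (mu b.1 + nu b.2)
    rw [hm.sup _ _ h1, hn.sup _ _ h2]
    exact add_add_add_comm _ _ _ _

/-- limits along an ultrafilter -/
theorem lim_ex [Finite M] (U : Ultrafilter ℕ) (F : ℕ → FT M) :
    ∃ L : FT M, ∀ j, ∀ᶠ k in (U : Filter ℕ), F k j = L j := by
  have h : ∀ j, ∃ l : TP M j, ∀ᶠ k in (U : Filter ℕ), F k j = l := by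
    intro j
    by_contra hc
    have h1 : ∀ l : TP M j, ∀ᶠ k in (U : Filter ℕ), ¬ F k j = l := by
      intro l
      rw [Ultrafilter.eventually_not]
      intro h2
      exact hc ⟨l, h2⟩
    have h3 : ∀ᶠ k in (U : Filter ℕ), ∀ l : TP M j, ¬ F k j = l := Filter.eventually_all.2 h1
    obtain ⟨k, hk⟩ := h3.exists
    exact hk _ rfl
  choose L hL using h
  exact ⟨L, hL⟩

theorem rl_lim [Finite M] (UP : S_UP) (U : Ultrafilter ℕ) (F : ℕ → FT M) (L : FT M)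
    (hF : ∀ k, Rl (F k)) (hL : ∀ j, ∀ᶠ k in (U : Filter ℕ), F k j = L j) : Rl L := by
  refine UP M L fun k => ?_
  have h : ∀ᶠ n in (U : Filter ℕ), ∀ j ∈ Finset.range (k + 1), F n j = L j :=
    (Filter.eventually_all_finset _).2 fun j _ => hL j
  obtain ⟨n, hn⟩ := h.exists
  exact ⟨F n, hF n, fun j hj => hn j (Finset.mem_range.2 (Nat.lt_succ_of_le hj))⟩

/-- the pair `(p k, q k)` splits `p + q` -/
theorem pair_mem (p q : FT M) (hp : Rl p) (hq : Rl q) (k : ℕ) :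
    ((p k, q k) : TP M k × TP M k) ∈ ((p + q) (k + 1)).2 := by
  obtain ⟨A, _, mu, a, hm, rfl⟩ := hp
  obtain ⟨B, _, nu, b, hn, rfl⟩ := hq
  have h1 : ((tp mu k a, 0) : TP M k × TP M k) ∈ (tp mu (k + 1) a).2 := by
    refine ⟨a, le_rfl, ?_⟩
    rw [sdiff_self, tp_bot hm k]
  have h2 : ((0, tp nu k b) : TP M k × TP M k) ∈ (tp nu (k + 1) b).2 := by
    refine ⟨⊥, bot_le, ?_⟩
    rw [sdiff_bot, tp_bot hn k]
  refine ⟨_, h1, _, h2, ?_⟩
  refine Prod.ext ?_ ?_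
  · show tp mu k a = tp mu k a + 0
    rw [add_zero]
  · show tp nu k b = 0 + tp nu k b
    rw [zero_add]

/-- approximate splittings -/
theorem split_ap {A : Type} [BooleanAlgebra A] (mu : A → M) (x : A) (p q : FT M)
    (hp : Rl p) (hq : Rl q) (h : ft mu x = p + q) (k : ℕ) :
    ∃ c ≤ x, (∀ j ≤ k, tp mu j c = p j) ∧ ∀ j ≤ k, tp mu j (x \ c) = q j := by
  have h1 := pair_mem p q hp hq k
  rw [← h] at h1
  obtain ⟨c, hc, h2⟩ := h1
  have h3 : p k = tp mu k c := congrArg Prod.fst h2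
  have h4 : q k = tp mu k (x \ c) := congrArg Prod.snd h2
  obtain ⟨A1, _, mu1, a1, hm1, rfl⟩ := hp
  obtain ⟨B1, _, nu1, b1, hn1, rfl⟩ := hq
  exact ⟨c, hc, fun j hj => tp_mono hj h3.symm, fun j hj => tp_mono hj h4.symm⟩

theorem add_ap (s t : FT M) (j : ℕ) : (s + t) j = s j + t j := rfl

theorem REF (TRN : S_TRN) (UP : S_UP) : S_REF := by
  intro M _ _ p q u v hp hq hu hv hpq
  obtain ⟨A, _, mu, a, hm, hu1⟩ := hu
  obtain ⟨B, _, nu, b, hn, hv1⟩ := hv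
  have hmn : AM (mprod mu nu) := am_prod hm hn
  have hx1 : ft (mprod mu nu) ((a, ⊥) : A × B) = u := by
    rw [← hu1]
    refine TRN M A (A × B) mu (mprod mu nu) (fun c => (c, ⊥)) a ?_ ?_ ?_ a le_rfl
    · intro b1 _ c1 _
      constructor
      · intro h
        exact ⟨h, le_rfl⟩
      · intro h
        exact h.1
    · rintro ⟨c1, c2⟩ hc
      refine ⟨c1, hc.1, ?_⟩
      have h2 : c2 ≤ ⊥ := hc.2
      rw [le_bot_iff.1 h2]
    · intro b1 _
      show mu b1 + nu ⊥ = mu b1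
      rw [hn.bot, add_zero]
  have hx2 : ft (mprod mu nu) ((⊥, b) : A × B) = v := by
    rw [← hv1]
    refine TRN M B (A × B) nu (mprod mu nu) (fun c => (⊥, c)) b ?_ ?_ ?_ b le_rfl
    · intro b1 _ c1 _
      constructor
      · intro h
        exact ⟨le_rfl, h⟩
      · intro h
        exact h.2
    · rintro ⟨c1, c2⟩ hc
      refine ⟨c2, hc.2, ?_⟩
      have h2 : c1 ≤ ⊥ := hc.1
      rw [le_bot_iff.1 h2]
    · intro b1 _
      show mu ⊥ + nu b1 = nu b1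
      rw [hm.bot, zero_add]
  have hd : Disjoint ((a, ⊥) : A × B) (⊥, b) := Prod.disjoint_iff.2 ⟨disjoint_bot_right,
    disjoint_bot_left⟩
  generalize hX1 : ((a, ⊥) : A × B) = x1 at hx1 hd
  generalize hX2 : ((⊥, b) : A × B) = x2 at hx2 hd
  have hx : ft (mprod mu nu) (x1 ⊔ x2) = p + q := by
    rw [ft_sup hmn _ _ hd, hx1, hx2, hpq]
  have hsp := fun k => split_ap (mprod mu nu) (x1 ⊔ x2) p q hp hq hx k
  choose c hc hcp hcq using hsp
  have hR : ∀ z : A × B, Rl (ft (mprod mu nu) z) := fun z => ⟨A × B, _, mprod mu nu, z, hmn, rfl⟩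
  let U : Ultrafilter ℕ := Filter.hyperfilter ℕ
  have hU : ∀ j : ℕ, ∀ᶠ k in (U : Filter ℕ), j ≤ k := by
    intro j
    exact Nat.hyperfilter_le_atTop (Filter.eventually_ge_atTop j)
  obtain ⟨p1, hp1⟩ := lim_ex U (fun k => ft (mprod mu nu) (c k ⊓ x1))
  obtain ⟨p2, hp2⟩ := lim_ex U (fun k => ft (mprod mu nu) (c k ⊓ x2))
  obtain ⟨q1, hq1⟩ := lim_ex U (fun k => ft (mprod mu nu) (x1 \ c k))
  obtain ⟨q2, hq2⟩ := lim_ex U (fun k => ft (mprod mu nu) (x2 \ c k))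
  refine ⟨p1, p2, q1, q2, rl_lim UP U _ p1 (fun k => hR _) hp1,
    rl_lim UP U _ p2 (fun k => hR _) hp2, rl_lim UP U _ q1 (fun k => hR _) hq1,
    rl_lim UP U _ q2 (fun k => hR _) hq2, ?_, ?_, ?_, ?_⟩
  · funext j
    obtain ⟨k, h1, h2, h3⟩ := ((hp1 j).and ((hp2 j).and (hU j))).exists
    rw [add_ap, ← h1, ← h2, ← hcp k j h3]
    have h4 : ft (mprod mu nu) (c k) = ft (mprod mu nu) (c k ⊓ x1) + ft (mprod mu nu) (c k ⊓ x2) := by
      rw [← ft_sup hmn _ _ (hd.mono inf_le_right inf_le_right), ← inf_sup_left,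
        inf_eq_left.2 (hc k)]
    exact (congrFun h4 j).symm
  · funext j
    obtain ⟨k, h1, h2, h3⟩ := ((hq1 j).and ((hq2 j).and (hU j))).exists
    rw [add_ap, ← h1, ← h2, ← hcq k j h3]
    have h4 : ft (mprod mu nu) ((x1 ⊔ x2) \ c k) =
        ft (mprod mu nu) (x1 \ c k) + ft (mprod mu nu) (x2 \ c k) := by
      rw [← ft_sup hmn _ _ (hd.mono sdiff_le sdiff_le), sup_sdiff]
    exact (congrFun h4 j).symm
  · funext j
    obtain ⟨k, h1, h2⟩ := ((hp1 j).and (hq1 j)).exists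
    rw [add_ap, ← h1, ← h2, ← hx1]
    have h4 : ft (mprod mu nu) x1 =
        ft (mprod mu nu) (c k ⊓ x1) + ft (mprod mu nu) (x1 \ c k) := by
      have h5 : Disjoint (c k ⊓ x1) (x1 \ c k) := disjoint_sdiff_self_right.mono_left inf_le_left
      rw [← ft_sup hmn _ _ h5, inf_comm, sup_inf_sdiff]
    exact (congrFun h4 j).symm
  · funext j
    obtain ⟨k, h1, h2⟩ := ((hp2 j).and (hq2 j)).exists
    rw [add_ap, ← h1, ← h2, ← hx2]
    have h4 : ft (mprod mu nu) x2 =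
        ft (mprod mu nu) (c k ⊓ x2) + ft (mprod mu nu) (x2 \ c k) := by
      have h5 : Disjoint (c k ⊓ x2) (x2 \ c k) := disjoint_sdiff_self_right.mono_left inf_le_left
      rw [← ft_sup hmn _ _ h5, inf_comm, sup_inf_sdiff]
    exact (congrFun h4 j).symm

end Pool.Agent.N592.VB
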